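import Pool.Agent.J4H45.GT.Stm0

/-!
# Project GT, piece (BRN): `1 - z` near `z = 1` is a short combination of powers
-/

set_option autoImplicit false

namespace Pool.Agent.J4H74.GT

open Finset Pool.Agent.J4H45.GT

variable {N : ℕ} [NeZero N]

/-- the character -/
noncomputable def ps (N : ℕ) [NeZero N] : AddChar (ZMod N) ℂ := ZMod.stdAddChar

theorem orth (x : ZMod N) : ∑ j : ZMod N, ps N (j * x) = if x = 0 then (N : ℂ) else 0 := by
  have h := AddChar.sum_mulShift (R := ZMod N) x (ZMod.isPrimitive_stdAddChar N)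
  rw [ZMod.card] at h
  push_cast at h
  exact h

theorem ps_norm (x : ZMod N) : ‖ps N x‖ = 1 := AddChar.norm_apply _ _

theorem ps_neg (x : ZMod N) : ps N (-x) = (starRingEnd ℂ) (ps N x) := AddChar.map_neg_eq_conj _ _

/-- the transform -/
noncomputable def hat (f : ZMod N → ℂ) (j : ZMod N) : ℂ := ∑ m, f m * ps N (-(j * m))

theorem parseval (f : ZMod N → ℂ) : ∑ j, ‖hat f j‖ ^ 2 = N * ∑ m, ‖f m‖ ^ 2 := by
  have h : ((∑ j, ‖hat f j‖ ^ 2 : ℝ) : ℂ) = ((N * ∑ m, ‖f m‖ ^ 2 : ℝ) : ℂ) := by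
    push_cast
    have h1 : ∀ z : ℂ, ((‖z‖ : ℂ)) ^ 2 = z * (starRingEnd ℂ) z := fun z =>
      (Complex.mul_conj' z).symm
    simp only [h1]
    have h2 : ∀ j : ZMod N, hat f j * (starRingEnd ℂ) (hat f j) =
        ∑ m, ∑ m', f m * (starRingEnd ℂ) (f m') * ps N (j * (m' - m)) := by
      intro j
      unfold hat
      rw [map_sum, Finset.sum_mul_sum]
      refine Finset.sum_congr rfl fun m _ => Finset.sum_congr rfl fun m' _ => ?_
      rw [map_mul, ← ps_neg, neg_neg, show j * (m' - m) = -(j * m) + j * m' by ring,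
        AddChar.map_add_eq_mul]
      ring
    rw [Finset.sum_congr rfl fun j _ => h2 j, Finset.sum_comm, Finset.mul_sum]
    refine Finset.sum_congr rfl fun m _ => ?_
    rw [Finset.sum_comm, Finset.sum_eq_single m]
    · rw [← Finset.mul_sum, orth, if_pos (sub_self m)]
      ring
    · intro m' _ hm'
      rw [← Finset.mul_sum, orth, if_neg (sub_ne_zero.2 hm'), mul_zero]
    · intro h
      exact absurd (Finset.mem_univ m) h
  exact_mod_cast h

theorem conv (f g : ZMod N → ℂ) : ∃ c : ZMod N → ℂ,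
    (∑ j, ‖c j‖) ≤ Real.sqrt (∑ m, ‖f m‖ ^ 2) * Real.sqrt (∑ m, ‖g m‖ ^ 2) ∧
    ∀ m, ∑ j, c j * ps N (j * m) = ∑ v, f (m - v) * g v := by
  have hN : (0 : ℝ) < N := by exact_mod_cast Nat.pos_of_ne_zero (NeZero.ne N)
  have hNc : (N : ℂ) ≠ 0 := by exact_mod_cast NeZero.ne N
  refine ⟨fun j => (N : ℂ)⁻¹ * (hat f j * hat g j), ?_, ?_⟩
  · have h1 : ∑ j, ‖(N : ℂ)⁻¹ * (hat f j * hat g j)‖ =
        (N : ℝ)⁻¹ * ∑ j, ‖hat f j‖ * ‖hat g j‖ := by
      rw [Finset.mul_sum]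
      refine Finset.sum_congr rfl fun j _ => ?_
      rw [norm_mul, norm_mul, norm_inv, Complex.norm_natCast]
    have h2 := Real.sum_mul_le_sqrt_mul_sqrt Finset.univ (fun j => ‖hat f j‖) (fun j => ‖hat g j‖)
    rw [parseval, parseval, Real.sqrt_mul hN.le, Real.sqrt_mul hN.le] at h2
    rw [h1]
    have h3 : Real.sqrt (N : ℝ) * Real.sqrt (N : ℝ) = N := Real.mul_self_sqrt hN.le
    calc (N : ℝ)⁻¹ * ∑ j, ‖hat f j‖ * ‖hat g j‖
        ≤ (N : ℝ)⁻¹ * (Real.sqrt N * Real.sqrt (∑ m, ‖f m‖ ^ 2) *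
          (Real.sqrt N * Real.sqrt (∑ m, ‖g m‖ ^ 2))) :=
          mul_le_mul_of_nonneg_left h2 (inv_nonneg.2 hN.le)
      _ = ((N : ℝ)⁻¹ * (Real.sqrt N * Real.sqrt N)) *
          (Real.sqrt (∑ m, ‖f m‖ ^ 2) * Real.sqrt (∑ m, ‖g m‖ ^ 2)) := by ring
      _ = _ := by rw [h3, inv_mul_cancel₀ hN.ne', one_mul]
  · intro m
    have h1 : ∀ j : ZMod N, (N : ℂ)⁻¹ * (hat f j * hat g j) * ps N (j * m) =
        ∑ v, ∑ u, (N : ℂ)⁻¹ * (f u * g v) * ps N (j * (m - v - u)) := by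
      intro j
      unfold hat
      rw [mul_comm (∑ u, f u * ps N (-(j * u))), Finset.sum_mul_sum, Finset.mul_sum,
        Finset.sum_mul]
      refine Finset.sum_congr rfl fun v _ => ?_
      rw [Finset.mul_sum, Finset.sum_mul]
      refine Finset.sum_congr rfl fun u _ => ?_
      rw [show j * (m - v - u) = -(j * u) + (-(j * v) + j * m) by ring, AddChar.map_add_eq_mul,
        AddChar.map_add_eq_mul]
      ring
    rw [Finset.sum_congr rfl fun j _ => h1 j, Finset.sum_comm]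
    refine Finset.sum_congr rfl fun v _ => ?_
    rw [Finset.sum_comm, Finset.sum_eq_single (m - v)]
    · rw [← Finset.mul_sum, orth, if_pos (sub_self _)]
      field_simp
    · intro u _ hu
      rw [← Finset.mul_sum, orth, if_neg (sub_ne_zero.2 hu.symm), mul_zero]
    · intro h
      exact absurd (Finset.mem_univ _) h

theorem ps_eq (x : ZMod N) : ps N x =
    Complex.exp (Complex.I * ((2 * Real.pi * (x.valMinAbs : ℝ) / N : ℝ) : ℂ)) := by
  conv_lhs => rw [← ZMod.coe_valMinAbs x]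
  unfold ps
  rw [ZMod.stdAddChar_coe]
  congr 1
  push_cast
  ring

theorem ps_up (x : ZMod N) : ‖1 - ps N x‖ ≤ 2 * Real.pi * (x.valMinAbs.natAbs : ℝ) / N := by
  rw [norm_sub_rev, ps_eq]
  refine (Real.norm_exp_I_mul_ofReal_sub_one_le).trans (le_of_eq ?_)
  rw [Real.norm_eq_abs, abs_div, abs_mul, abs_mul, abs_of_pos Real.pi_pos, abs_two,
    Nat.abs_cast, Nat.cast_natAbs, Int.cast_abs]

theorem ps_low (x : ZMod N) : 4 * (x.valMinAbs.natAbs : ℝ) / N ≤ ‖1 - ps N x‖ := by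
  have hN : (0 : ℝ) < N := by exact_mod_cast Nat.pos_of_ne_zero (NeZero.ne N)
  have hv : (x.valMinAbs.natAbs : ℝ) ≤ N / 2 := by
    have h1 := ZMod.natAbs_valMinAbs_le x
    have h2 : ((x.valMinAbs.natAbs : ℕ) : ℝ) ≤ ((N / 2 : ℕ) : ℝ) := by exact_mod_cast h1
    exact h2.trans (Nat.cast_div_le)
  have ha : |(x.valMinAbs : ℝ)| = (x.valMinAbs.natAbs : ℝ) := by
    rw [Nat.cast_natAbs, Int.cast_abs]
  rw [norm_sub_rev, ps_eq, Complex.norm_exp_I_mul_ofReal_sub_one, Real.norm_eq_abs, abs_mul,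
    abs_two]
  set t : ℝ := 2 * Real.pi * (x.valMinAbs : ℝ) / N / 2 with ht
  have hta : |t| = Real.pi * (x.valMinAbs.natAbs : ℝ) / N := by
    rw [ht, show 2 * Real.pi * (x.valMinAbs : ℝ) / N / 2 = Real.pi * (x.valMinAbs : ℝ) / N by ring,
      abs_div, abs_mul, abs_of_pos Real.pi_pos, Nat.abs_cast, ha]
  have htl : |t| ≤ Real.pi / 2 := by
    rw [hta, div_le_iff₀ hN]
    have := mul_le_mul_of_nonneg_left hv Real.pi_pos.le
    linarith
  have h := Real.mul_abs_le_abs_sin htl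
  rw [hta] at h
  have h2 : 2 / Real.pi * (Real.pi * (x.valMinAbs.natAbs : ℝ) / N) =
      2 * (x.valMinAbs.natAbs : ℝ) / N := by
    field_simp
  rw [h2] at h
  have h3 : 4 * (x.valMinAbs.natAbs : ℝ) / N = 2 * (2 * (x.valMinAbs.natAbs : ℝ) / N) := by ring
  rw [h3]
  linarith

theorem vma (y : ℤ) (hy : 2 * y.natAbs < N) : ((y : ℤ) : ZMod N).valMinAbs = y := by
  rw [ZMod.valMinAbs_spec]
  refine ⟨rfl, ?_, ?_⟩ <;> omega

theorem nrm (S : Finset (ZMod N)) (h : ZMod N → ℂ) (c : ℝ) (hc : ∀ u ∈ S, ‖h u‖ ≤ c) (hc0 : 0 ≤ c) :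
    Real.sqrt (∑ u, ‖(if u ∈ S then h u else 0 : ℂ)‖ ^ 2) ≤ Real.sqrt (S.card : ℝ) * c := by
  have h1 : ∑ u, ‖(if u ∈ S then h u else 0 : ℂ)‖ ^ 2 ≤ (S.card : ℝ) * c ^ 2 := by
    have h2 : ∀ u : ZMod N, ‖(if u ∈ S then h u else 0 : ℂ)‖ ^ 2 =
        if u ∈ S then ‖h u‖ ^ 2 else 0 := by
      intro u
      split_ifs <;> simp
    rw [Finset.sum_congr rfl fun u _ => h2 u, ← Finset.sum_filter, Finset.filter_mem_eq_inter,
      Finset.univ_inter, ← nsmul_eq_mul]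
    exact Finset.sum_le_card_nsmul _ _ _ fun u hu => pow_le_pow_left₀ (norm_nonneg _) (hc u hu) 2
  refine (Real.sqrt_le_sqrt h1).trans (le_of_eq ?_)
  rw [Real.sqrt_mul (Nat.cast_nonneg _), Real.sqrt_sq hc0]

theorem t_BRN : S_BRN := by
  intro N ε hN hε0 hε
  obtain ⟨n, rfl⟩ : ∃ n, N = n + 1 := ⟨N - 1, by omega⟩
  have hNr : (0 : ℝ) < ((n + 1 : ℕ) : ℝ) := by positivity
  have hpi := Real.pi_pos
  obtain ⟨L, hL⟩ : ∃ L : ℕ, L = ⌊((n + 1 : ℕ) : ℝ) * ε / 4⌋₊ := ⟨_, rfl⟩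
  have hLe : (L : ℝ) ≤ ((n + 1 : ℕ) : ℝ) * ε / 4 := by
    rw [hL]
    exact Nat.floor_le (by positivity)
  have hL8 : 8 * L ≤ n + 1 := by
    have h1 : (8 * L : ℝ) ≤ ((n + 1 : ℕ) : ℝ) := by nlinarith
    exact_mod_cast h1
  obtain ⟨B, hBd⟩ : ∃ B : Finset (ZMod (n + 1)), ∀ v, v ∈ B ↔ v.valMinAbs.natAbs ≤ L :=
    ⟨univ.filter fun v => v.valMinAbs.natAbs ≤ L, fun v => by simp⟩
  obtain ⟨A, hAd⟩ : ∃ A : Finset (ZMod (n + 1)), ∀ v, v ∈ A ↔ v.valMinAbs.natAbs ≤ 2 * L :=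
    ⟨univ.filter fun v => v.valMinAbs.natAbs ≤ 2 * L, fun v => by simp⟩
  have hB0 : (0 : ZMod (n + 1)) ∈ B := by
    rw [hBd, ZMod.valMinAbs_zero]
    simp
  have hBc : (0 : ℝ) < (B.card : ℝ) := by
    exact_mod_cast Finset.card_pos.2 ⟨_, hB0⟩
  have hsub : ∀ m ∈ B, ∀ v ∈ B, m - v ∈ A := by
    intro m hm v hv
    rw [hBd] at hm hv
    have h1 : m - v = ((m.valMinAbs - v.valMinAbs : ℤ) : ZMod (n + 1)) := by
      rw [Int.cast_sub, ZMod.coe_valMinAbs, ZMod.coe_valMinAbs]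
    rw [hAd, h1, vma _ (by omega)]
    omega
  have hAB : A.card ≤ 2 * B.card := by
    have h1 : A ⊆ B.image (fun v => v + (L : ZMod (n + 1))) ∪
        B.image (fun v => v - (L : ZMod (n + 1))) := by
      intro u hu
      rw [hAd] at hu
      rw [Finset.mem_union, Finset.mem_image, Finset.mem_image]
      rcases le_total 0 u.valMinAbs with h0 | h0
      · left
        refine ⟨u - L, ?_, by ring⟩
        have h2 : u - (L : ZMod (n + 1)) = ((u.valMinAbs - L : ℤ) : ZMod (n + 1)) := by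
          rw [Int.cast_sub, ZMod.coe_valMinAbs, Int.cast_natCast]
        rw [hBd, h2, vma _ (by omega)]
        omega
      · right
        refine ⟨u + L, ?_, by ring⟩
        have h2 : u + (L : ZMod (n + 1)) = ((u.valMinAbs + L : ℤ) : ZMod (n + 1)) := by
          rw [Int.cast_add, ZMod.coe_valMinAbs, Int.cast_natCast]
        rw [hBd, h2, vma _ (by omega)]
        omega
    have h2 := Finset.card_le_card h1
    have h3 := Finset.card_union_le (B.image (fun v => v + (L : ZMod (n + 1))))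
      (B.image (fun v => v - (L : ZMod (n + 1))))
    have h4 : (B.image (fun v => v + (L : ZMod (n + 1)))).card ≤ B.card := Finset.card_image_le
    have h5 : (B.image (fun v => v - (L : ZMod (n + 1)))).card ≤ B.card := Finset.card_image_le
    omega
  have hAn : ∀ u ∈ A, ‖1 - ps (n + 1) u‖ ≤ Real.pi * ε := by
    intro u hu
    rw [hAd] at hu
    have hu' : (u.valMinAbs.natAbs : ℝ) ≤ 2 * L := by exact_mod_cast hu
    refine (ps_up u).trans ?_
    rw [div_le_iff₀ hNr]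
    nlinarith [mul_le_mul_of_nonneg_left hu' hpi.le, mul_le_mul_of_nonneg_left hLe hpi.le]
  have hBn : ∀ u ∈ B, ‖1 - ps (n + 1) u‖ ≤ Real.pi * ε / 2 := by
    intro u hu
    rw [hBd] at hu
    have hu' : (u.valMinAbs.natAbs : ℝ) ≤ L := by exact_mod_cast hu
    refine (ps_up u).trans ?_
    rw [div_le_iff₀ hNr]
    nlinarith [mul_le_mul_of_nonneg_left hu' hpi.le, mul_le_mul_of_nonneg_left hLe hpi.le]
  obtain ⟨c1, hc1, hc1e⟩ := conv (fun u => if u ∈ A then 1 - ps (n + 1) u else 0)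
    (fun v => if v ∈ B then 1 else 0)
  obtain ⟨c2, hc2, hc2e⟩ := conv (fun u => if u ∈ A then ps (n + 1) u else 0)
    (fun v => if v ∈ B then 1 - ps (n + 1) v else 0)
  have hs1 := nrm A (fun u => 1 - ps (n + 1) u) (Real.pi * ε) hAn (by positivity)
  have hs2 := nrm B (fun _ => (1 : ℂ)) 1 (fun _ _ => by simp) zero_le_one
  have hs3 := nrm A (fun u => ps (n + 1) u) 1 (fun u _ => (ps_norm u).le) zero_le_one
  have hs4 := nrm B (fun u => 1 - ps (n + 1) u) (Real.pi * ε / 2) hBn (by positivity)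
  have hb1 : ∑ j, ‖c1 j‖ ≤ (Real.sqrt A.card * (Real.pi * ε)) * (Real.sqrt B.card * 1) :=
    hc1.trans (mul_le_mul hs1 hs2 (Real.sqrt_nonneg _) (by positivity))
  have hb2 : ∑ j, ‖c2 j‖ ≤ (Real.sqrt A.card * 1) * (Real.sqrt B.card * (Real.pi * ε / 2)) :=
    hc2.trans (mul_le_mul hs3 hs4 (Real.sqrt_nonneg _) (by positivity))
  have hsA : Real.sqrt A.card ≤ Real.sqrt 2 * Real.sqrt B.card := by
    rw [← Real.sqrt_mul (by norm_num)]
    exact Real.sqrt_le_sqrt (by exact_mod_cast hAB)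
  have hBB : Real.sqrt B.card * Real.sqrt B.card = B.card := Real.mul_self_sqrt hBc.le
  have hs22 : Real.sqrt 2 ≤ 1.4143 := by
    rw [Real.sqrt_le_left (by norm_num)]
    norm_num
  have hpi2 : Real.pi < 3.1416 := Real.pi_lt_d4
  refine ⟨fun j => (B.card : ℂ)⁻¹ * (c1 j + c2 j), ?_, ?_⟩
  · have h1 : ∑ j : Fin (n + 1), ‖(B.card : ℂ)⁻¹ * (c1 j + c2 j)‖ ≤
        (B.card : ℝ)⁻¹ * (∑ j : ZMod (n + 1), ‖c1 j‖ + ∑ j : ZMod (n + 1), ‖c2 j‖) := by
      rw [← Finset.sum_add_distrib, Finset.mul_sum]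
      refine Finset.sum_le_sum fun j _ => ?_
      rw [norm_mul, norm_inv, Complex.norm_natCast]
      exact mul_le_mul_of_nonneg_left (norm_add_le _ _) (inv_nonneg.2 hBc.le)
    refine h1.trans ?_
    rw [inv_mul_le_iff₀ hBc]
    have h2 : ∑ j : ZMod (n + 1), ‖c1 j‖ + ∑ j : ZMod (n + 1), ‖c2 j‖ ≤
        (Real.sqrt A.card * Real.sqrt B.card) * (3 / 2 * (Real.pi * ε)) := by
      refine (add_le_add hb1 hb2).trans (le_of_eq (by ring))
    have h3 : Real.sqrt A.card * Real.sqrt B.card ≤ 1.4143 * B.card := by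
      calc Real.sqrt A.card * Real.sqrt B.card
          ≤ (Real.sqrt 2 * Real.sqrt B.card) * Real.sqrt B.card :=
            mul_le_mul_of_nonneg_right hsA (Real.sqrt_nonneg _)
        _ = Real.sqrt 2 * B.card := by rw [mul_assoc, hBB]
        _ ≤ 1.4143 * B.card := mul_le_mul_of_nonneg_right hs22 hBc.le
    have h4 : 3 / 2 * (Real.pi * ε) ≤ 3 / 2 * (3.1416 * ε) := by nlinarith
    calc ∑ j : ZMod (n + 1), ‖c1 j‖ + ∑ j : ZMod (n + 1), ‖c2 j‖
        ≤ (Real.sqrt A.card * Real.sqrt B.card) * (3 / 2 * (Real.pi * ε)) := h2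
      _ ≤ (1.4143 * B.card) * (3 / 2 * (3.1416 * ε)) :=
          mul_le_mul h3 h4 (by positivity) (by positivity)
      _ ≤ B.card * (7 * ε) := by nlinarith [mul_pos hBc hε0]
  · intro z hz hze
    obtain ⟨i, _, hi⟩ := (Complex.isPrimitiveRoot_exp (n + 1) (Nat.succ_ne_zero n)).eq_pow_of_pow_eq_one hz
    obtain ⟨m, hm⟩ : ∃ m : ZMod (n + 1), ps (n + 1) m = z := by
      refine ⟨((i : ℤ) : ZMod (n + 1)), ?_⟩
      unfold ps
      rw [ZMod.stdAddChar_coe, ← hi, ← Complex.exp_nat_mul]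
      congr 1
      push_cast
      ring
    have hmB : m ∈ B := by
      rw [hBd, hL]
      refine Nat.le_floor ?_
      have h1 : 4 * (m.valMinAbs.natAbs : ℝ) / ((n + 1 : ℕ) : ℝ) ≤ ε := by
        refine (ps_low m).trans ?_
        rw [hm]
        exact hze
      rw [div_le_iff₀ hNr] at h1
      linarith
    have hpow : ∀ j : ZMod (n + 1), z ^ (ZMod.val j) = ps (n + 1) (j * m) := by
      intro j
      rw [← hm, ← AddChar.map_nsmul_eq_pow, nsmul_eq_mul, ZMod.natCast_zmod_val]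
    have h1 : ∑ j : Fin (n + 1), (B.card : ℂ)⁻¹ * (c1 j + c2 j) * z ^ (j : ℕ) =
        (B.card : ℂ)⁻¹ * (∑ j : ZMod (n + 1), c1 j * ps (n + 1) (j * m) +
          ∑ j : ZMod (n + 1), c2 j * ps (n + 1) (j * m)) := by
      rw [← Finset.sum_add_distrib, Finset.mul_sum]
      refine Finset.sum_congr rfl fun j _ => ?_
      rw [← hpow j]
      change _ = (B.card : ℂ)⁻¹ * (c1 j * z ^ (j : ℕ) + c2 j * z ^ (j : ℕ))
      ring
    rw [h1, hc1e, hc2e, ← Finset.sum_add_distrib]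
    have h2 : ∀ v : ZMod (n + 1), ((if m - v ∈ A then 1 - ps (n + 1) (m - v) else 0) *
        (if v ∈ B then 1 else 0) + (if m - v ∈ A then ps (n + 1) (m - v) else 0) *
        (if v ∈ B then 1 - ps (n + 1) v else 0) : ℂ) = if v ∈ B then 1 - z else 0 := by
      intro v
      by_cases hv : v ∈ B
      · rw [if_pos (hsub m hmB v hv), if_pos hv, if_pos (hsub m hmB v hv), if_pos hv, if_pos hv,
          ← hm]
        have h3 : ps (n + 1) (m - v) * ps (n + 1) v = ps (n + 1) m := by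
          rw [← AddChar.map_add_eq_mul, sub_add_cancel]
        linear_combination (-1 : ℂ) * h3
      · rw [if_neg hv, if_neg hv, if_neg hv]
        ring
    rw [Finset.sum_congr rfl fun v _ => h2 v, ← Finset.sum_filter, Finset.filter_mem_eq_inter,
      Finset.univ_inter, Finset.sum_const, nsmul_eq_mul, ← mul_assoc, inv_mul_cancel₀, one_mul]
    exact_mod_cast hBc.ne'

end Pool.Agent.J4H74.GT
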